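import Mathlib
import Pool.Agent.U286.LY.ETasym

/-!
# Exact Triangle by random word circuits with bounded error: gates + crossings `n ^ 3`

The input is the matrix of the pairs (edge flag, weight) of an instance of Exact Triangle with `n`
vertices, with the range of the weights of the problem. The model is the word circuit of the library
(`Pool.Agent.Y631.Wc.WCirc`): the gates hold words (elements of a finite set `Z`), and a gate
computes an ARBITRARY function of at most `κ` entries of the matrix and words of earlier gates. The
entries are not placed in the plane: they can be read everywhere; `reads`, the number of the wires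
from entries to gates, is counted. The graph of the gates (the matrix is deleted) is drawn in the
plane.

A random circuit is a circuit for every point of a finite probability space (a nonuniform form of the
random bits of the problem's machine). The error is that of the problem: for every valid instance the
answer is wrong with probability at most `1 / 3`. The number of the reads and the number of the gates
and crossings are bounded on average only.

**Result.** If the expected number of reads is `O (n ^ 2)`, the fan-in is bounded and the words have
`O (log n)` bits, then the expected number of gates and crossings is at least `c n ^ 3 / log ^ 2 n`;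
here `n ^ 3` is the exponent of the Exact Triangle hypothesis. If the expected number of gates and
crossings is at most `n ^ (3 - ε)`, the expected number of reads is `Ω (ε n ^ 2 log n)`.

**Proof.** The earlier hand-ins (`CrossingNumber`, and the starting results on word circuits for
other problems) are about circuits which are always correct: they use fooling sets, and random
circuits are reduced to single circuits; this says nothing about circuits with errors. New here:
(i) Razborov's corruption lemma for disjointness (`Pool.Agent.U286.LY.corruption`, `udisj`), proved
in the library for partitions into rectangles on an arbitrary set of coordinates;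
(ii) `Pool.Agent.U286.LY.fam_error`: the hard distribution depends on the division of the circuit
into parts, so it cannot be fixed in advance. The random shift, the circuit, the set `Q` of the pairs
(hub, left vertex) which are separated by the division and the fixing of all other entries are chosen
by weights such that the error on `Q` stays small, although `Q` is only a `1 / C ^ r` fraction;
(iii) the error `1 / 3` is reduced to `1 / 6432` by the majority of 160 circuits, without building
(and drawing) the circuit of the majority: all circuits are divided separately, and the parts of all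
of them are given to the two players.
-/

set_option autoImplicit false

namespace Pool.Agent.Results.MP_62fbe0_lc.BoundedError

open Pool.Agent.Y631.Wc Pool.Agent.U286.LY Pool.Agent.U286.LY.ET Pool.Agent.U514.PD.W

open Classical in
/-- The random circuit `C` (the circuit `C ω` has the probability `p ω`) consists of deterministic
circuits of fan-in at most `κ` and decides Exact Triangle on `n` vertices with bounded error: for
every valid instance the probability of a wrong answer is at most `1 / 3`. -/
structure Decides {n : ℕ} {Z Ω : Type} [Fintype Ω] (p : Ω → ℝ)
    (C : Ω → WCirc (Fin n × Fin n) (Bool × ℤ) Z) (κ : ℕ) : Prop where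
  nonneg : ∀ ω, 0 ≤ p ω
  total : ∑ ω, p ω = 1
  det : ∀ ω, (C ω).Deterministic
  fanIn : ∀ ω, (C ω).FanIn κ
  error : ∀ x, Valid n x → ∑ ω with ¬ ((C ω).Accepts x ↔ ZeroTriangle x), p ω ≤ 1 / 3

/-- the expected value -/
def mean {Ω : Type} [Fintype Ω] (p : Ω → ℝ) (c : Ω → ℕ) : ℝ := ∑ ω, p ω * c ω

/-- (1) Let `C` be a random circuit of fan-in at most `κ`, with words of `b ≥ 1` bits, that decides
Exact Triangle on `n` vertices with bounded error. Let `C ω` be drawn in the plane with at most
`k ω` crossings. If the expected number of reads is at most `r n ^ 2`, `r ≥ 1`, and the expected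
number of gates and crossings is at most `g`, then
`n ^ 3 ≤ 2 ^ (1200000 r) ((κ + 1) b) ^ 2 (g + n)`.

(2) For all `a`, `κ`, `0 < ε ≤ 2` and all large `n`: if the random circuit has fan-in at most `κ`
and at most `n ^ a` words, decides Exact Triangle on `n` vertices with bounded error, and the
expected number of gates and crossings is at most `n ^ (3 - ε)`, then the expected number of reads
is at least `(ε / 4800000) n ^ 2 log₂ n`. -/
theorem result :
    (∀ {n r κ b : ℕ} {g : ℝ}, 1 ≤ r → 1 ≤ b → ∀ {Z : Type} [Fintype Z], Fintype.card Z ≤ 2 ^ b →
      ∀ {Ω : Type} [Fintype Ω] (p : Ω → ℝ) (C : Ω → WCirc (Fin n × Fin n) (Bool × ℤ) Z)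
      (k : Ω → ℕ), Decides p C κ → (∀ ω, CrossingsLE (C ω) (k ω)) →
      mean p (fun ω => (C ω).reads) ≤ r * (n : ℝ) ^ 2 →
      mean p (fun ω => (C ω).size + k ω) ≤ g →
      (n : ℝ) ^ 3 ≤ 2 ^ (1200000 * r) * (((κ + 1) * b) ^ 2 * (g + n))) ∧
    ∀ (a κ : ℕ) (ε : ℝ), 0 < ε → ε ≤ 2 → ∃ n₀ : ℕ, ∀ n ≥ n₀,
      ∀ (Z : Type) [Fintype Z], Fintype.card Z ≤ n ^ a → ∀ (Ω : Type) [Fintype Ω] (p : Ω → ℝ)
      (C : Ω → WCirc (Fin n × Fin n) (Bool × ℤ) Z) (k : Ω → ℕ), Decides p C κ →
      (∀ ω, CrossingsLE (C ω) (k ω)) →
      mean p (fun ω => (C ω).size + k ω) ≤ (n : ℝ) ^ (3 - ε) →
      ε / 4800000 * ((n : ℝ) ^ 2 * Real.logb 2 n) ≤ mean p fun ω => (C ω).reads := by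
  refine ⟨?_, ?_⟩
  · intro n r κ b g hr hb Z _ hZ Ω _ p C k h hk hR hg
    exact drawing_error hr hb hZ p h.nonneg h.total C h.det h.fanIn h.error hR k hk hg
  · intro a κ ε hε hε1
    obtain ⟨n₀, hn₀⟩ := drawing_error_random a κ ε hε hε1
    refine ⟨n₀, fun n hn Z _ hZ Ω _ p C k h hk hg => ?_⟩
    exact hn₀ n hn Z hZ Ω p h.nonneg h.total C k (fun ω => ⟨h.det ω, h.fanIn ω, hk ω⟩) hg h.error

end Pool.Agent.Results.MP_62fbe0_lc.BoundedError
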