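import Mathlib
import Pool.Agent.U286.LY.EThost

/-!
# Exact Triangle by word circuits drawn in the plane: gates + crossings `n ^ 3`

The input is the matrix of the pairs (edge flag, weight) of an instance of Exact Triangle with `n`
vertices, with the range of the weights of the problem. The model is the word circuit of the library
(`Pool.Agent.Y631.Wc.WCirc`): the gates hold words (elements of a finite set `Z`), and a gate
computes an ARBITRARY function or relation of at most `κ` entries of the matrix and words of earlier
gates. The entries are not placed in the plane: they can be read everywhere; `C.reads`, the number of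
the wires from entries to gates, is counted. The graph of the gates (the matrix is deleted) is drawn
in the plane with at most `k` crossings.

**Result.** Circuits with `O (n ^ 2)` reads, bounded fan-in and words of `O (log n)` bits need
`gates + crossings ≥ c n ^ 3 / log ^ 2 n` if they are nondeterministic and accept exactly the
instances without a triangle of weight zero, and `gates + crossings ≥ c n ^ 3` if they have at most one
accepting computation for each input (for instance, if the gates compute functions) and decide the
question; here `n ^ 3` is the exponent of the Exact Triangle hypothesis. With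
`gates + crossings ≤ n ^ (3 - ε)` the number of the reads is `Ω (ε n ^ 2 log n)`, also on average over
random circuits that are always correct.

**Proof.** The known way from a communication problem to circuits of small treewidth uses that an
ARBITRARY division of the entries between two players leaves a hard problem. For the triangles of
weight zero this is false: two entries interact only if they share a vertex, and all entries at one
vertex may be read by one small part of the circuit. New is the following
(`Pool.Agent.U286.LY.separated`): the `n ^ 2` entries between hubs and a left side are compared with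
the `n ^ 2` entries between hubs and a right side in one of `N` ways, the shifts; the circuit is
divided into about `r ^ 2 n` parts which read `n / (9600 r)` entries each. Then for the average shift
most of the pairs have no part in common, and a random division of the parts between two players
separates `n ^ 2 / C ^ r` pairs, for which they have to compare letters. So the boundary of the
division has at least `n ^ 2 / C ^ r` words (`cut`), while a drawing with `g` gates and crossings can
be divided into `r ^ 2 n` parts with a boundary of `O (r ^ 2 n √(g / n))` gates.
-/

set_option autoImplicit false

namespace Pool.Agent.Results.MP_62fbe0_lc.CrossingNumber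

open Pool.Agent.Y631.Wc Pool.Agent.U286.LY.ET Pool.Agent.U514.PD.W

/-- (1) Let `C` be a word circuit of fan-in at most `κ` for matrices of `n` vertices, with at most
`r n ^ 2` reads, which solves Exact Triangle (`Solves`): it is nondeterministic with words of `b`
bits and accepts exactly the valid instances without a triangle of weight zero, or it has at most one
accepting computation for each input, at most `n ^ b` words, and decides the question. If the graph
of its gates can be drawn in the plane with at most `k` crossings, then
`n ^ 3 ≤ 2 ^ (1712 r) ((κ + 1) b) ^ 2 (gates + k + n)`.

(2) For all `a`, `κ`, `0 < ε ≤ 2` and all large `n`: if random circuits of fan-in `κ`, with at most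
`n ^ a` words, at most one accepting computation for each input and `gates + crossings ≤ n ^ (3 - ε)`
always decide the question correctly, then the expected number of reads is at least
`(ε / 3424) n ^ 2 log₂ n`. -/
theorem result :
    (∀ {n r κ b k : ℕ}, 1 ≤ r → 1 ≤ b → ∀ {Z : Type} [Fintype Z]
      (C : WCirc (Fin n × Fin n) (Bool × ℤ) Z), C.FanIn κ → C.reads ≤ r * n ^ 2 → Solves C b →
      CrossingsLE C k → n ^ 3 ≤ 2 ^ (1712 * r) * (((κ + 1) * b) ^ 2 * (C.size + k + n))) ∧
    ∀ (a κ : ℕ) (ε : ℝ), 0 < ε → ε ≤ 2 → ∃ n₀ : ℕ, ∀ n ≥ n₀,
      ∀ (Z : Type) [Fintype Z], Fintype.card Z ≤ n ^ a →
      ∀ (Ω : Type) [Fintype Ω] (p : Ω → ℝ), (∀ ω, 0 ≤ p ω) → ∑ ω, p ω = 1 →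
      ∀ (C : Ω → WCirc (Fin n × Fin n) (Bool × ℤ) Z) (k : Ω → ℕ),
        (∀ ω, (C ω).FanIn κ ∧ CrossingsLE (C ω) (k ω) ∧
          (((C ω).size + k ω : ℕ) : ℝ) ≤ (n : ℝ) ^ (3 - ε) ∧ (C ω).Unambiguous ∧
          ((∀ x, Valid n x → ((C ω).Accepts x ↔ ZeroTriangle x)) ∨
            (∀ x, Valid n x → ((C ω).Accepts x ↔ ¬ ZeroTriangle x)))) →
        ε / 3424 * ((n : ℝ) ^ 2 * Real.logb 2 n) ≤ ∑ ω, p ω * (C ω).reads := by
  refine ⟨?_, fun a κ ε hε hε1 => drawing_random a κ ε hε hε1⟩
  intro n r κ b k hr hb Z _ C hκ hR hC hk
  exact drawing_bound hr hb C hκ hk le_rfl hR hC

end Pool.Agent.Results.MP_62fbe0_lc.CrossingNumber
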