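import Mathlib
import Pool.Agent.U286.LY.EThost

/-!
# Exact Triangle by word circuits laid out in a lattice: volume `n ^ (2 + 1 / (D - 1))`

The input is the matrix of the pairs (edge flag, weight) of an instance of Exact Triangle with `n`
vertices, with the range of the weights of the problem. The model is the word circuit of the library
(`Pool.Agent.Y631.Wc.WCirc`): the gates hold words (elements of a finite set `Z`), and a gate
computes an ARBITRARY function or relation of at most `κ` entries of the matrix and words of earlier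
gates. The entries are not placed: they can be read everywhere; `C.reads`, the number of the wires
from entries to gates, is counted.

The circuit is laid out in a host graph of cells (`Layout`): every gate (with the wires that leave
it, if one likes) occupies a nonempty connected region of cells, every cell belongs to at most `c`
regions (`c` layers), and if there is a wire between two gates then their regions meet or touch. The
regions may have any shape and size. For example, an oblivious array of processors of dimension
`D - 1` with `p` processors that works for `t` steps gives a layout on `p t` cells of the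
`D`-dimensional lattice.

**Result.** Let every set of `m` cells of the host graph be divided by at most `K m ^ α` cells into
parts with at most `ϑ m` cells (`HasSep`), `0 < α < 1`. A circuit with `r n ^ 2` reads, with words of
`b log n` bits, fan-in `κ` and load `c` on `v` cells has `c (v + n) ^ α ≥ n ^ (1 + α) / (C ^ r (κ + 1) b)`.
For the `D`-dimensional lattice `α = 1 - 1 / D`, so the volume is `≥ c_r n ^ (2 + 1 / (D - 1))`,
although the input has only `n ^ 2` entries, which can be read everywhere: `n ^ 3` cells for `D = 2`,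
and `n ^ (5 / 2)` for circuits in space.

**Proof.** As for `CrossingNumber`: `Pool.Agent.U286.LY.ET.cut` says that every division of the circuit into parts which
read `n / (9600 r)` entries each has a boundary of at least `n ^ 2 / (C ^ r (κ + 1) b)` gates, and
`exists_pieces` divides a layout into `O (r ^ 2 n)` parts, with a boundary of `O (c (v / n) ^ α)` gates
each. Planar drawings with crossings and layouts in host graphs do not contain each other: the
hosts here need not be planar, and a layout may use long and wide regions.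
-/

set_option autoImplicit false

namespace Pool.Agent.Results.MP_62fbe0_lc.LatticeLayouts

open Pool.Agent.Y631.Wc Pool.Agent.U286.LY Pool.Agent.U286.LY.ET

/-- Let `C` be a word circuit of fan-in at most `κ` for matrices of `n` vertices, with at most
`r n ^ 2` reads, which solves Exact Triangle (`Solves`): it is nondeterministic with words of `b`
bits and accepts exactly the valid instances without a triangle of weight zero, or it has at most one
accepting computation for each input, at most `n ^ b` words, and decides the question.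

(1) For all `K ≥ 0`, `0 < α < 1`, `0 ≤ ϑ < 1` there is `C₀`: if `C` is laid out, with load `c`, on
`v` cells of a host graph with separators `K m ^ α`, then
`n ^ (1 + α) ≤ C₀ 2 ^ (826 r) (κ + 1) b c (v + n) ^ α`.

(2) For every `D ≥ 2` there is `C₀`: if `C` is laid out, with load `c`, on the finite set `J` of
cells of the `D`-dimensional lattice, then
`n ^ (2 D - 1) ≤ (C₀ ^ r (κ + 1) b c) ^ D (|J| + n) ^ (D - 1)`.

(3) For all `a`, `κ`, `ε > 0`, `K`, `α`, `ϑ` as in (1) and all large `n`: if random circuits of
fan-in `κ`, with at most `n ^ a` words and at most one accepting computation for each input, always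
decide the question correctly, and each of them is laid out, with load `c`, on `v` cells of a host
graph as in (1) with `c (v + n) ^ α ≤ n ^ (1 + α - ε)`, then the expected number of reads is at
least `(ε / 1652) n ^ 2 log₂ n`. -/
theorem result :
    (∀ {K α ϑ : ℝ}, 0 ≤ K → 0 < α → α < 1 → 0 ≤ ϑ → ϑ < 1 → ∃ C₀ : ℝ, ∀ {n r κ b c v : ℕ},
      1 ≤ r → 1 ≤ b → ∀ {Z : Type} [Fintype Z] (C : WCirc (Fin n × Fin n) (Bool × ℤ) Z),
      C.FanIn κ → C.reads ≤ r * n ^ 2 → Solves C b → LaidOut C.Joined K α ϑ v c →
      (n : ℝ) ^ (1 + α) ≤ C₀ * 2 ^ (826 * r) * ((κ + 1) * b * (c * ((v : ℝ) + n) ^ α))) ∧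
    (∀ D : ℕ, 2 ≤ D → ∃ C₀ : ℕ, ∀ {n r κ b c : ℕ}, 1 ≤ r → 1 ≤ b →
      ∀ {Z : Type} [Fintype Z] (C : WCirc (Fin n × Fin n) (Bool × ℤ) Z), C.FanIn κ →
      C.reads ≤ r * n ^ 2 → Solves C b → ∀ (J : Finset (Fin D → ℤ))
      (reg : Fin C.size → Finset (Fin D → ℤ)), Layout C.Joined (lattice D) J c reg →
      n ^ (2 * D - 1) ≤ (C₀ ^ r * ((κ + 1) * b * c)) ^ D * (J.card + n) ^ (D - 1)) ∧
    ∀ (a κ : ℕ) {K α ϑ : ℝ}, 0 ≤ K → 0 < α → α < 1 → 0 ≤ ϑ → ϑ < 1 → ∀ (ε : ℝ), 0 < ε →
      ∃ n₀ : ℕ, ∀ n ≥ n₀, ∀ (Z : Type) [Fintype Z], Fintype.card Z ≤ n ^ a →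
      ∀ (Ω : Type) [Fintype Ω] (p : Ω → ℝ), (∀ ω, 0 ≤ p ω) → ∑ ω, p ω = 1 →
      ∀ (C : Ω → WCirc (Fin n × Fin n) (Bool × ℤ) Z) (c v : Ω → ℕ),
        (∀ ω, (C ω).FanIn κ ∧ LaidOut (C ω).Joined K α ϑ (v ω) (c ω) ∧
          (c ω : ℝ) * ((v ω : ℝ) + n) ^ α ≤ (n : ℝ) ^ (1 + α - ε) ∧ (C ω).Unambiguous ∧
          ((∀ x, Valid n x → ((C ω).Accepts x ↔ ZeroTriangle x)) ∨
            (∀ x, Valid n x → ((C ω).Accepts x ↔ ¬ ZeroTriangle x)))) →
        ε / 1652 * ((n : ℝ) ^ 2 * Real.logb 2 n) ≤ ∑ ω, p ω * (C ω).reads := by
  refine ⟨?_, lattice_bound, ?_⟩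
  · intro K α ϑ hK hα hα1 hϑ0 hϑ
    obtain ⟨C₀, -, h⟩ := hosts_bound hK hα hα1 hϑ0 hϑ
    exact ⟨C₀, h⟩
  · intro a κ K α ϑ hK hα hα1 hϑ0 hϑ ε hε
    exact hosts_random a κ hK hα hα1 hϑ0 hϑ ε hε

end Pool.Agent.Results.MP_62fbe0_lc.LatticeLayouts
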