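import Mathlib
import Pool.Agent.U286.LY.EThost

/-!
# Exact Triangle by word circuits of treewidth `θ`: `θ ≥ n / C ^ r`

The input is the matrix of the pairs (edge flag, weight) of an instance of Exact Triangle with `n`
vertices, with the range of the weights of the problem. The model is the word circuit of the library
(`Pool.Agent.Y631.Wc.WCirc`): the gates hold words (elements of a finite set `Z`), and a gate
computes an ARBITRARY function or relation of at most `κ` entries of the matrix and words of earlier
gates. `C.reads` is the number of the wires from entries to gates; the treewidth is that of the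
graph of the gates (the matrix is deleted).

**Result.** A circuit with `r n ^ 2` reads needs treewidth `θ` with
`(κ + 1) b (θ + 1) ≥ n / 2 ^ (831 r)`, where the words have `b` bits for nondeterministic
circuits which accept exactly the instances without a triangle of weight zero, and `b log₂ n` bits
for circuits with at most one accepting computation for each input. With treewidth `n ^ (1 - ε)` one
needs `Ω (ε n ^ 2 log n)` reads, also on average over random circuits that are always correct.

**Proof.** The starting results `TreewidthTimesReads` on other problems use that an arbitrary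
division of the entries between two players leaves a hard problem. This is false here (all entries
at a vertex may be read by one part); see `Pool.Agent.U286.LY.separated` for the new argument with
shifts, which is also used for the hand-ins `CrossingNumber` and `LatticeLayouts`. These are not
consequences of a bound for the treewidth: it would give `n ^ 2` gates and crossings only.
-/

set_option autoImplicit false

namespace Pool.Agent.Results.MP_62fbe0_lc.TreewidthTimesReads

open Pool.Agent.Y631.Wc Pool.Agent.U286.LY.ET

/-- (1) Let `C` be a word circuit of fan-in at most `κ` for matrices of `n` vertices, with at most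
`r n ^ 2` reads, which solves Exact Triangle (`Solves`): it is nondeterministic with words of `b`
bits and accepts exactly the valid instances without a triangle of weight zero, or it has at most one
accepting computation for each input, at most `n ^ b` words, and decides the question. If its
treewidth is at most `θ`, then `n ≤ 2 ^ (831 r) (κ + 1) b (θ + 1)`.

(2) For all `a`, `κ`, `0 < ε ≤ 1` and all large `n`: if random circuits of fan-in `κ`, with at most
`n ^ a` words, at most one accepting computation for each input and treewidth at most `n ^ (1 - ε)`
always decide the question correctly, then the expected number of reads is at least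
`(ε / 1662) n ^ 2 log₂ n`. -/
theorem result :
    (∀ {n r κ b θ : ℕ}, 1 ≤ r → 1 ≤ b → ∀ {Z : Type} [Fintype Z]
      (C : WCirc (Fin n × Fin n) (Bool × ℤ) Z), C.FanIn κ → C.reads ≤ r * n ^ 2 → Solves C b →
      C.TreewidthLE θ → n ≤ 2 ^ (831 * r) * ((κ + 1) * b * (θ + 1))) ∧
    ∀ (a κ : ℕ) (ε : ℝ), 0 < ε → ε ≤ 1 → ∃ n₀ : ℕ, ∀ n ≥ n₀,
      ∀ (Z : Type) [Fintype Z], Fintype.card Z ≤ n ^ a →
      ∀ (Ω : Type) [Fintype Ω] (p : Ω → ℝ), (∀ ω, 0 ≤ p ω) → ∑ ω, p ω = 1 →
      ∀ (C : Ω → WCirc (Fin n × Fin n) (Bool × ℤ) Z) (θ : Ω → ℕ),
        (∀ ω, (C ω).FanIn κ ∧ (C ω).TreewidthLE (θ ω) ∧ (θ ω : ℝ) ≤ (n : ℝ) ^ (1 - ε) ∧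
          (C ω).Unambiguous ∧
          ((∀ x, Valid n x → ((C ω).Accepts x ↔ ZeroTriangle x)) ∨
            (∀ x, Valid n x → ((C ω).Accepts x ↔ ¬ ZeroTriangle x)))) →
        ε / 1662 * ((n : ℝ) ^ 2 * Real.logb 2 n) ≤ ∑ ω, p ω * (C ω).reads := by
  refine ⟨?_, fun a κ ε hε hε1 => treewidth_random a κ ε hε hε1⟩
  intro n r κ b θ hr hb Z _ C hκ hR hC hθ
  exact treewidth_bound hr hb C hκ hθ hR hC

end Pool.Agent.Results.MP_62fbe0_lc.TreewidthTimesReads
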